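import Pool.Agent.Helper96.SE.Stmts

set_option autoImplicit false

/-! (PD1) inserting a city into an edge which is always used. -/

namespace Pool.Agent.Helper96.SE

open Pool.Agent.Helper31.BC (dst tourLen Placement Pair Ineq Refutes)
open Pool.Agent.Helper38.MR (Edge Graph clq mpt)

/-- the old edges -/
def pd1_up {n : ℕ} (e : Pair n) : Pair (n + 1) :=
  ⟨(e.1.1.castSucc, e.1.2.castSucc), Fin.castSucc_lt_castSucc_iff.2 e.2⟩

/-- the new edges -/
def pd1_la {n : ℕ} (i : Fin n) : Pair (n + 1) := ⟨(i.castSucc, Fin.last n), Fin.castSucc_lt_last i⟩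

theorem pd1_bij (n : ℕ) : Function.Bijective (Sum.elim (pd1_up (n := n)) pd1_la) := by
  constructor
  · rintro (e | i) (e' | i') h
    · have h1 := congrArg (fun u : Pair (n + 1) => u.1.1) h
      have h2 := congrArg (fun u : Pair (n + 1) => u.1.2) h
      have h3 : e = e' := Subtype.ext (Prod.ext (Fin.castSucc_injective n h1)
        (Fin.castSucc_injective n h2))
      rw [h3]
    · have h2 := congrArg (fun u : Pair (n + 1) => u.1.2) h
      exact absurd h2 (Fin.castSucc_lt_last _).ne
    · have h2 := congrArg (fun u : Pair (n + 1) => u.1.2) h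
      exact absurd h2.symm (Fin.castSucc_lt_last _).ne
    · have h1 := congrArg (fun u : Pair (n + 1) => u.1.1) h
      rw [Fin.castSucc_injective n h1]
  · rintro ⟨⟨i, j⟩, hij⟩
    have hij' : i < j := hij
    induction i using Fin.lastCases with
    | last => exact absurd hij' (not_lt.2 (Fin.le_last j))
    | cast i =>
      induction j using Fin.lastCases with
      | last => exact ⟨Sum.inr i, rfl⟩
      | cast j => exact ⟨Sum.inl ⟨(i, j), Fin.castSucc_lt_castSucc_iff.1 hij'⟩, rfl⟩

theorem pd1_sum {n : ℕ} {M : Type} [AddCommMonoid M] (F : Pair (n + 1) → M) :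
    ∑ e, F e = ∑ e, F (pd1_up e) + ∑ i, F (pd1_la i) := by
  rw [← Function.Bijective.sum_comp (pd1_bij n) F, Fintype.sum_sum_type]
  rfl

/-- the new vector -/
noncomputable def pd1_ins {n : ℕ} (c : ℤ) (e₀ : Pair n) (x : Pair n → ℤ) (e : Pair (n + 1)) : ℤ :=
  match (Equiv.ofBijective _ (pd1_bij n)).symm e with
  | Sum.inl e' => if e' = e₀ then 0 else x e'
  | Sum.inr i => if i = e₀.1.1 ∨ i = e₀.1.2 then c else 0

theorem pd1_ins_up {n : ℕ} (c : ℤ) (e₀ : Pair n) (x : Pair n → ℤ) (e : Pair n) :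
    pd1_ins c e₀ x (pd1_up e) = if e = e₀ then 0 else x e := by
  have h : (Equiv.ofBijective _ (pd1_bij n)).symm (pd1_up e) = Sum.inl e :=
    (Equiv.symm_apply_eq _).2 rfl
  unfold pd1_ins
  rw [h]

theorem pd1_ins_la {n : ℕ} (c : ℤ) (e₀ : Pair n) (x : Pair n → ℤ) (i : Fin n) :
    pd1_ins c e₀ x (pd1_la i) = if i = e₀.1.1 ∨ i = e₀.1.2 then c else 0 := by
  have h : (Equiv.ofBijective _ (pd1_bij n)).symm (pd1_la i) = Sum.inr i :=
    (Equiv.symm_apply_eq _).2 rfl
  unfold pd1_ins
  rw [h]

theorem pd1_cases {n : ℕ} (e : Pair (n + 1)) : (∃ e', e = pd1_up e') ∨ ∃ i, e = pd1_la i := by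
  obtain ⟨u, rfl⟩ := (pd1_bij n).2 e
  rcases u with e' | i
  · exact Or.inl ⟨e', rfl⟩
  · exact Or.inr ⟨i, rfl⟩

theorem pd1_add {n : ℕ} (e₀ : Pair n) (x y : Pair n → ℤ) (e : Pair (n + 1)) :
    pd1_ins 1 e₀ x e + pd1_ins 0 e₀ y e = pd1_ins 1 e₀ (fun e => x e + y e) e := by
  rcases pd1_cases e with ⟨e', rfl⟩ | ⟨i, rfl⟩
  · rw [pd1_ins_up, pd1_ins_up, pd1_ins_up]
    by_cases h : e' = e₀
    · simp [h]
    · simp [h]
  · rw [pd1_ins_la, pd1_ins_la, pd1_ins_la]
    by_cases h : i = e₀.1.1 ∨ i = e₀.1.2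
    · simp [h]
    · simp [h]

/-- sum over the ends of an edge -/
theorem pd1_ends {n : ℕ} (e₀ : Pair n) (F : Fin n → ℝ) :
    ∑ i, (if i = e₀.1.1 ∨ i = e₀.1.2 then F i else 0) = F e₀.1.1 + F e₀.1.2 := by
  have hne : e₀.1.1 ≠ e₀.1.2 := e₀.2.ne
  have h : ∀ i, (if i = e₀.1.1 ∨ i = e₀.1.2 then F i else 0) =
      (if i = e₀.1.1 then F i else 0) + (if i = e₀.1.2 then F i else 0) := by
    intro i
    by_cases h1 : i = e₀.1.1
    · have h2 : i ≠ e₀.1.2 := by rw [h1]; exact hne
      simp [h1, hne]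
    · by_cases h2 : i = e₀.1.2
      · simp [h2, hne.symm]
      · simp [h1, h2]
  rw [Finset.sum_congr rfl fun i _ => h i, Finset.sum_add_distrib]
  simp

/-- weighted sums of the new vector -/
theorem pd1_wsum {n : ℕ} (e₀ : Pair n) (x : Pair n → ℤ) (hx : x e₀ = 1) (a : Pair (n + 1) → ℝ) :
    ∑ e, a e * (pd1_ins 1 e₀ x e : ℝ) = ∑ e, a (pd1_up e) * (x e : ℝ) - a (pd1_up e₀) +
      (a (pd1_la e₀.1.1) + a (pd1_la e₀.1.2)) := by
  rw [pd1_sum]
  have h1 : ∑ i, a (pd1_la i) * (pd1_ins 1 e₀ x (pd1_la i) : ℝ) =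
      a (pd1_la e₀.1.1) + a (pd1_la e₀.1.2) := by
    rw [← pd1_ends e₀ (fun i => a (pd1_la i))]
    refine Finset.sum_congr rfl fun i _ => ?_
    rw [pd1_ins_la]
    by_cases h : i = e₀.1.1 ∨ i = e₀.1.2
    · rw [if_pos h, if_pos h]; simp
    · rw [if_neg h, if_neg h]; simp
  have h2 : ∑ e, a (pd1_up e) * (pd1_ins 1 e₀ x (pd1_up e) : ℝ) =
      ∑ e, a (pd1_up e) * (x e : ℝ) - a (pd1_up e₀) := by
    have h3 : ∀ e, a (pd1_up e) * (pd1_ins 1 e₀ x (pd1_up e) : ℝ) =
        a (pd1_up e) * (x e : ℝ) - (if e = e₀ then a (pd1_up e₀) else 0) := by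
      intro e
      rw [pd1_ins_up]
      by_cases h : e = e₀
      · rw [if_pos h, if_pos h, h, hx]; simp
      · rw [if_neg h, if_neg h]; simp
    rw [Finset.sum_congr rfl fun e _ => h3 e, Finset.sum_sub_distrib]
    simp
  rw [h1, h2]

theorem pd1_dst_comm (p q : ℤ × ℤ) : dst p q = dst q p := by
  unfold dst
  congr 1
  push_cast
  ring

theorem pd1_two {n : ℕ} (P : Fin n → ℤ × ℤ) (b : ℝ) (e₀ : Pair n) (z : ℤ × ℤ) (x : Pair n → ℤ)
    (hx : TwoFactor P b x) (h1 : x e₀ = 1) :
    TwoFactor (Fin.snoc P z : Fin (n + 1) → ℤ × ℤ)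
      (b + (dst (P e₀.1.1) z + dst z (P e₀.1.2) - dst (P e₀.1.1) (P e₀.1.2)))
      (pd1_ins 1 e₀ x) := by
  refine ⟨?_, ?_, ?_⟩
  · intro e
    rcases pd1_cases e with ⟨e', rfl⟩ | ⟨i, rfl⟩
    · rw [pd1_ins_up]
      by_cases h : e' = e₀
      · left; rw [if_pos h]
      · rw [if_neg h]; exact hx.bin e'
    · rw [pd1_ins_la]
      by_cases h : i = e₀.1.1 ∨ i = e₀.1.2
      · right; rw [if_pos h]
      · left; rw [if_neg h]
  · intro v
    have h2 := pd1_wsum e₀ x h1 (fun e => if e.1.1 = v ∨ e.1.2 = v then 1 else 0)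
    have h3 : ((∑ e : Pair (n + 1), (if e.1.1 = v ∨ e.1.2 = v then pd1_ins 1 e₀ x e else 0) : ℤ) : ℝ) =
        ∑ e, (if e.1.1 = v ∨ e.1.2 = v then (1 : ℝ) else 0) * (pd1_ins 1 e₀ x e : ℝ) := by
      push_cast
      refine Finset.sum_congr rfl fun e _ => ?_
      by_cases h : e.1.1 = v ∨ e.1.2 = v
      · rw [if_pos h, if_pos h, one_mul]
      · rw [if_neg h, if_neg h, zero_mul]; 
    have h4 : ((∑ e : Pair (n + 1), (if e.1.1 = v ∨ e.1.2 = v then pd1_ins 1 e₀ x e else 0) : ℤ) : ℝ)
        = 2 := by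
      rw [h3, h2]
      induction v using Fin.lastCases with
      | last =>
        have h5 : ∀ i : Fin n, i.castSucc ≠ Fin.last n := fun i => (Fin.castSucc_lt_last i).ne
        simp only [pd1_up, pd1_la, h5, or_false, or_true, if_true, if_false, zero_mul,
          Finset.sum_const_zero, sub_zero]
        norm_num
      | cast u =>
        have h5 : Fin.last n ≠ u.castSucc := (Fin.castSucc_lt_last u).ne'
        have h6 := hx.deg u
        have h7 : ∑ e, (if (pd1_up e).1.1 = u.castSucc ∨ (pd1_up e).1.2 = u.castSucc then (1 : ℝ)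
            else 0) * (x e : ℝ) = 2 := by
          have h8 : ((∑ e : Pair n, (if e.1.1 = u ∨ e.1.2 = u then x e else 0) : ℤ) : ℝ) = 2 := by
            rw [h6]; norm_num
          rw [← h8]
          push_cast
          refine Finset.sum_congr rfl fun e _ => ?_
          simp only [pd1_up, Fin.castSucc_inj]
          by_cases h : e.1.1 = u ∨ e.1.2 = u
          · rw [if_pos h, if_pos h, one_mul]
          · rw [if_neg h, if_neg h, zero_mul]
        rw [h7]
        simp only [pd1_up, pd1_la, Fin.castSucc_inj, h5, or_false]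
        have hne : e₀.1.1 ≠ e₀.1.2 := e₀.2.ne
        by_cases ha : e₀.1.1 = u
        · have hb : ¬ e₀.1.2 = u := fun h => hne (ha.trans h.symm)
          simp [ha, hb]
        · by_cases hb : e₀.1.2 = u
          · simp [ha, hb]
          · simp [ha, hb]
    exact_mod_cast h4
  · rw [pd1_wsum e₀ x h1]
    have h5 : ∀ i : Fin n, (Fin.snoc P z : Fin (n + 1) → ℤ × ℤ) i.castSucc = P i := fun i =>
      Fin.snoc_castSucc (α := fun _ => ℤ × ℤ) z P i
    have h6 : (Fin.snoc P z : Fin (n + 1) → ℤ × ℤ) (Fin.last n) = z :=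
      Fin.snoc_last (α := fun _ => ℤ × ℤ) z P
    simp only [pd1_up, pd1_la, h5, h6]
    have h7 := hx.len
    rw [pd1_dst_comm z (P e₀.1.2)]
    linarith

theorem pd1_le (s u v : ℝ) (h : u ≤ v) : s ≤ s - u + v := by linarith

theorem st_PD1 : ST_PD1 := by
  intro n m A B P b gA gB f g e₀ w z hn hw hS h1
  refine ⟨fun α => pd1_ins 1 e₀ (f α), fun β => pd1_ins 0 e₀ (g β), pd1_la w, rfl, rfl, ?_, ?_⟩
  · have hsum : ∀ α β, (fun e => pd1_ins 1 e₀ (f α) e + pd1_ins 0 e₀ (g β) e) =
        pd1_ins 1 e₀ (fun e => f α e + g β e) := fun α β => funext fun e => pd1_add e₀ _ _ e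
    refine ⟨?_, ?_⟩
    · intro α β
      rw [hsum]
      exact pd1_two P b e₀ z _ (hS.mem α β) (h1 α β)
    · intro S hSn hSu
      classical
      set S0 : Finset (Fin n) := Finset.univ.filter (fun i => i.castSucc ∈ S) with hS0
      have hmem : ∀ i : Fin n, i ∈ S0 ↔ i.castSucc ∈ S := fun i => by simp [hS0]
      by_cases hp : S0.Nonempty ∧ S0 ≠ Finset.univ
      · obtain ⟨ε, hε⟩ := hS.leaf S0 hp.1 hp.2
        refine ⟨ε, fun α β hno => hε α β ?_⟩
        intro hold
        apply hno
        rw [hsum]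
        unfold Ineq.Holds subtour at hold ⊢
        simp only at hold ⊢
        rw [pd1_wsum e₀ _ (h1 α β)]
        simp only [pd1_up, pd1_la]
        simp only [hmem] at hold
        refine hold.trans (pd1_le _ _ _ ?_)
        by_cases ha : e₀.1.1.castSucc ∈ S
        · by_cases hb : e₀.1.2.castSucc ∈ S
          · by_cases hc : Fin.last n ∈ S
            · simp [ha, hb, hc]
            · simp [ha, hb, hc]
          · by_cases hc : Fin.last n ∈ S
            · simp [ha, hb, hc]
            · simp [ha, hb, hc]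
        · by_cases hb : e₀.1.2.castSucc ∈ S
          · by_cases hc : Fin.last n ∈ S
            · simp [ha, hb, hc]
            · simp [ha, hb, hc]
          · by_cases hc : Fin.last n ∈ S
            · simp [ha, hb, hc]
            · simp [ha, hb, hc]
      · -- never violated
        have hpos : 0 < n := by omega
        obtain ⟨ε, _⟩ := hS.leaf {(⟨0, hpos⟩ : Fin n)} (Finset.singleton_nonempty _) (by
          intro h
          have h2 : (⟨1, by omega⟩ : Fin n) ∈ ({(⟨0, hpos⟩ : Fin n)} : Finset (Fin n)) := by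
            rw [h]; exact Finset.mem_univ _
          rw [Finset.mem_singleton, Fin.mk.injEq] at h2
          exact absurd h2 one_ne_zero)
        refine ⟨ε, fun α β hno => absurd ?_ hno⟩
        rw [hsum]
        unfold Ineq.Holds subtour
        simp only
        rw [pd1_wsum e₀ _ (h1 α β)]
        simp only [pd1_up, pd1_la]
        rw [not_and_or, not_not, Finset.not_nonempty_iff_eq_empty] at hp
        rcases hp with hp | hp
        · have hno : ∀ i : Fin n, i.castSucc ∉ S := by
            intro i hi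
            have := (hmem i).2 hi
            rw [hp] at this
            exact absurd this (Finset.notMem_empty _)
          have hl : Fin.last n ∈ S := by
            obtain ⟨j, hj⟩ := hSn
            induction j using Fin.lastCases with
            | last => exact hj
            | cast i => exact absurd hj (hno i)
          simp [hno, hl]
          norm_num
        · have hall : ∀ i : Fin n, i.castSucc ∈ S := by
            intro i
            rw [← hmem i, hp]
            exact Finset.mem_univ _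
          have hl : Fin.last n ∉ S := by
            intro hl
            apply hSu
            ext j
            induction j using Fin.lastCases with
            | last => simp [hl]
            | cast i => simp [hall i]
          simp [hall, hl]
          norm_num
  · intro α β
    rw [pd1_add, pd1_ins_la, if_pos hw]

end Pool.Agent.Helper96.SE

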