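import Pool.Agent.Helper96.SE.Stmts2
import Pool.Agent.Helper41.SE.PD1
import Pool.Agent.Helper7.SE.PAD

set_option autoImplicit false

/-! (MPD) inserting cities into several edges which are always used. -/

namespace Pool.Agent.Helper96.SE

open Pool.Agent.Helper31.BC (dst tourLen Placement Pair Ineq Refutes)
open Pool.Agent.Helper38.MR (Edge Graph clq mpt)
open Pool.Agent.Helper68.LP (padded sc near)

/-- the number of `q < T` with `q % J = j` -/
def mpd_r (T J j : ℕ) : ℕ := T / J + if j < T % J then 1 else 0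

theorem mpd_r_self (T J : ℕ) : mpd_r T J (T % J) = T / J := by
  unfold mpd_r
  rw [if_neg (lt_irrefl _), add_zero]

theorem mpd_r_zero (J j : ℕ) : mpd_r 0 J j = 0 := by
  unfold mpd_r
  simp

theorem mpd_r_succ (T J j : ℕ) (hJ : 0 < J) (hj : j < J) :
    mpd_r (T + 1) J j = mpd_r T J j + if j = T % J then 1 else 0 := by
  have hT : T % J + J * (T / J) = T := Nat.mod_add_div T J
  have hc : T % J < J := Nat.mod_lt _ hJ
  unfold mpd_r
  rcases Nat.lt_or_ge (T % J + 1) J with h | h
  · obtain ⟨h1, h2⟩ := (Nat.div_mod_unique (a := T + 1) (d := T / J) (c := T % J + 1) hJ).2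
      ⟨by omega, h⟩
    rw [h1, h2]
    by_cases h3 : j < T % J
    · have h4 : j < T % J + 1 := by omega
      have h5 : j ≠ T % J := by omega
      rw [if_pos h3, if_pos h4, if_neg h5]
    · by_cases h6 : j = T % J
      · rw [if_pos (by omega), if_neg h3, if_pos h6]
      · rw [if_neg (by omega), if_neg h3, if_neg h6]
  · obtain ⟨h1, h2⟩ := (Nat.div_mod_unique (a := T + 1) (d := T / J + 1) (c := 0) hJ).2
      ⟨by rw [mul_add]; omega, hJ⟩
    rw [h1, h2, if_neg (by omega)]
    by_cases h6 : j = T % J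
    · rw [if_neg (by omega), if_pos h6]
    · rw [if_pos (by omega), if_neg h6]

theorem mpd_zero {n : ℕ} (L J : ℕ) (w : ℕ → Fin n) (P : Fin n → ℤ × ℤ) :
    spread L 0 J w P = fun i => sc L (P i) := by
  funext i
  have h := Fin.append_left (fun i => sc L (P i))
    (fun q : Fin 0 => near (sc L (P (w ((q : ℕ) % J)))) ((q : ℕ) / J)) i
  exact h

theorem mpd_succ {n : ℕ} (L T J : ℕ) (w : ℕ → Fin n) (P : Fin n → ℤ × ℤ) :
    spread L (T + 1) J w P =
      (Fin.snoc (spread L T J w P) (near (sc L (P (w (T % J)))) (T / J)) :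
        Fin (n + T + 1) → ℤ × ℤ) := by
  funext i
  refine Fin.lastCases (n := n + T) ?_ (fun i => ?_) i
  · have h0 : (Fin.snoc (spread L T J w P) (near (sc L (P (w (T % J)))) (T / J)) :
        Fin (n + T + 1) → ℤ × ℤ) (Fin.last (n + T)) = near (sc L (P (w (T % J)))) (T / J) :=
      Fin.snoc_last _ _
    refine Eq.trans ?_ h0.symm
    have h := Fin.append_right (fun i => sc L (P i))
      (fun q : Fin (T + 1) => near (sc L (P (w ((q : ℕ) % J)))) ((q : ℕ) / J)) (Fin.last T)
    exact h
  · have h0 : (Fin.snoc (spread L T J w P) (near (sc L (P (w (T % J)))) (T / J)) :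
        Fin (n + T + 1) → ℤ × ℤ) i.castSucc = spread L T J w P i := Fin.snoc_castSucc _ _ _
    refine Eq.trans ?_ h0.symm
    refine Fin.addCases (fun i => ?_) (fun j => ?_) i
    · have h := Fin.append_left (fun i => sc L (P i))
        (fun q : Fin (T + 1) => near (sc L (P (w ((q : ℕ) % J)))) ((q : ℕ) / J)) i
      have h' := Fin.append_left (fun i => sc L (P i))
        (fun q : Fin T => near (sc L (P (w ((q : ℕ) % J)))) ((q : ℕ) / J)) i
      exact h.trans h'.symm
    · have h := Fin.append_right (fun i => sc L (P i))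
        (fun q : Fin (T + 1) => near (sc L (P (w ((q : ℕ) % J)))) ((q : ℕ) / J)) j.castSucc
      have h' := Fin.append_right (fun i => sc L (P i))
        (fun q : Fin T => near (sc L (P (w ((q : ℕ) % J)))) ((q : ℕ) / J)) j
      exact h.trans h'.symm

/-- the invariant -/
def mpd_Inv {n m : ℕ} {A B : Type} (gA : A → Graph m) (gB : B → Graph m)
    (f : A → Pair n → ℤ) (g : B → Pair n → ℤ) (J : ℕ) (w : ℕ → Fin n) (T : ℕ)
    (Q : Fin (n + T) → ℤ × ℤ) (b : ℝ) (q : ℕ → ℤ × ℤ) : Prop :=
  ∃ (f' : A → Pair (n + T) → ℤ) (g' : B → Pair (n + T) → ℤ) (E' : ℕ → Pair (n + T)),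
    Spl (TwoFactor Q b) gA gB f' g' ∧ (∀ j, j < J → ∀ α β, f' α (E' j) + g' β (E' j) = 1) ∧
    (∀ i j, i < J → j < J → E' i = E' j → i = j) ∧
    (∀ j, j < J → Q (E' j).1.1 = q j ∨ Q (E' j).1.2 = q j) ∧
    ∀ α β (S : Finset (Fin (n + T))), S.Nonempty → S ≠ Finset.univ →
      ¬ (subtour S).Holds (fun e => f' α e + g' β e) →
      (Finset.univ.filter fun i : Fin n => i.castAdd T ∈ S).Nonempty ∧
      (Finset.univ.filter fun i : Fin n => i.castAdd T ∈ S) ≠ Finset.univ ∧
      ¬ (subtour (Finset.univ.filter fun i : Fin n => i.castAdd T ∈ S)).Holds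
        (fun e => f α e + g β e) ∧
      (∀ j, j < J → ((E' j).1.1 ∈ S ↔ (w j).castAdd T ∈ S)) ∧
      ∀ r : Fin T, (r.natAdd n ∈ S ↔ (w ((r : ℕ) % J)).castAdd T ∈ S)

theorem mpd_cost (Qa Qb c : ℤ × ℤ) (t : ℕ)
    (h : Qa = (c.1 + (t : ℤ), c.2) ∨ Qb = (c.1 + (t : ℤ), c.2)) :
    dst Qa (near c t) + dst (near c t) Qb - dst Qa Qb ≤ 2 := by
  rcases h with hw | hw
  · have a1 := pad_tri (near c t) Qa Qb
    rw [hw, pad_dst_near'] at a1
    have a2 := pad_dst_near c t
    rw [hw, a2]
    linarith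
  · have a1 := pad_tri Qa Qb (near c t)
    rw [hw, pad_dst_near] at a1
    have a2 := pad_dst_near' c t
    rw [hw, a2]
    linarith

theorem mpd_step (h1 : ST_PD2) {n m : ℕ} {A B : Type} (gA : A → Graph m) (gB : B → Graph m)
    (f : A → Pair n → ℤ) (g : B → Pair n → ℤ) (J : ℕ) (hJ : 0 < J) (w : ℕ → Fin n) (T : ℕ)
    (Q : Fin (n + T) → ℤ × ℤ) (b : ℝ) (q : ℕ → ℤ × ℤ) (c : ℤ × ℤ) (t : ℕ) (hn : 3 ≤ n)
    (hq : q (T % J) = (c.1 + (t : ℤ), c.2)) (q' : ℕ → ℤ × ℤ)
    (hq1 : ∀ j, j < J → j ≠ T % J → q' j = q j)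
    (hq2 : q' (T % J) = (c.1 + ((t + 1 : ℕ) : ℤ), c.2))
    (h : mpd_Inv gA gB f g J w T Q b q) :
    mpd_Inv gA gB f g J w (T + 1) (Fin.snoc Q (near c t) : Fin (n + T + 1) → ℤ × ℤ) (b + 2) q' := by
  obtain ⟨f', g', E', hs, hone, hinj, hpos, hviol⟩ := h
  have hj0 : T % J < J := Nat.mod_lt _ hJ
  obtain ⟨f2, g2, e1, he1, he2, hs2, hone2, hold2, hviol2⟩ := h1 (n + T) m A B Q b gA gB f' g'
    (E' (T % J)) (E' (T % J)).1.1 (near c t) (by omega) (Or.inl rfl) hs (hone _ hj0)
  let E2 : ℕ → Pair (n + (T + 1)) := fun j => if j = T % J then e1 else pd1_up (n := n + T) (E' j)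
  have hE2a : E2 (T % J) = e1 := if_pos rfl
  have hE2b : ∀ j, j ≠ T % J → E2 j = pd1_up (n := n + T) (E' j) := fun j hj => if_neg hj
  have hcs : ∀ i : Fin (n + T), (Fin.snoc Q (near c t) : Fin (n + T + 1) → ℤ × ℤ) i.castSucc = Q i :=
    fun i => Fin.snoc_castSucc (α := fun _ => ℤ × ℤ) _ Q i
  have hla : (Fin.snoc Q (near c t) : Fin (n + T + 1) → ℤ × ℤ) (Fin.last _) = near c t :=
    Fin.snoc_last (α := fun _ => ℤ × ℤ) _ Q
  refine ⟨f2, g2, E2, pad_mono ?_ hs2, ?_, ?_, ?_, ?_⟩
  · have := mpd_cost (Q (E' (T % J)).1.1) (Q (E' (T % J)).1.2) c t (by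
      rw [← hq]; exact hpos _ hj0)
    linarith
  · intro j hj α β
    by_cases h : j = T % J
    · rw [h, hE2a]; exact hone2 α β
    · rw [hE2b j h]
      have hne : E' j ≠ E' (T % J) := fun hh => h (hinj _ _ hj hj0 hh)
      have := hold2 (E' j) (pd1_up (n := n + T) (E' j)) hne rfl rfl α β
      exact this.trans (hone j hj α β)
  · intro i j hi hj hij
    by_cases h : i = T % J
    · by_cases h' : j = T % J
      · rw [h, h']
      · exfalso
        rw [h, hE2a, hE2b j h'] at hij
        have h3 : e1.1.2 = (E' j).1.2.castSucc :=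
          congrArg (fun u : Pair (n + T + 1) => u.1.2) hij
        rw [he2] at h3
        exact absurd h3.symm (Fin.castSucc_lt_last _).ne
    · by_cases h' : j = T % J
      · exfalso
        rw [h', hE2a, hE2b i h] at hij
        have h3 : (E' i).1.2.castSucc = e1.1.2 :=
          congrArg (fun u : Pair (n + T + 1) => u.1.2) hij
        rw [he2] at h3
        exact absurd h3 (Fin.castSucc_lt_last _).ne
      · rw [hE2b i h, hE2b j h'] at hij
        have h3 := congrArg (fun u : Pair (n + T + 1) => u.1.1) hij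
        have h4 := congrArg (fun u : Pair (n + T + 1) => u.1.2) hij
        exact hinj _ _ hi hj (Subtype.ext (Prod.ext (Fin.castSucc_injective _ h3)
          (Fin.castSucc_injective _ h4)))
  · intro j hj
    by_cases h : j = T % J
    · right
      rw [h, hE2a, he2, hla, hq2]
      unfold near
      push_cast
      rfl
    · rw [hE2b j h, hq1 j hj h]
      rcases hpos j hj with h3 | h3
      · left
        exact (hcs _).trans h3
      · right
        exact (hcs _).trans h3
  · intro α β S hSn hSu hv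
    obtain ⟨a1, a2, a3, a4, a5⟩ := hviol2 α β S hSn hSu hv
    obtain ⟨b1, b2, b3, b4, b5⟩ := hviol α β _ a1 a2 a3
    have hmem : ∀ i : Fin (n + T), i ∈ (Finset.univ.filter fun i : Fin (n + T) => i.castSucc ∈ S) ↔
        i.castSucc ∈ S := fun i => by simp
    have hfil : (Finset.univ.filter fun i : Fin n => i.castAdd T ∈
        (Finset.univ.filter fun i : Fin (n + T) => i.castSucc ∈ S)) =
        (Finset.univ.filter fun i : Fin n => i.castAdd (T + 1) ∈ S) := by
      ext i
      simp only [Finset.mem_filter, Finset.mem_univ, true_and]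
      rfl
    rw [hfil] at b1 b2 b3
    refine ⟨b1, b2, b3, ?_, ?_⟩
    · intro j hj
      have h3 := b4 j hj
      rw [hmem, hmem] at h3
      by_cases h : j = T % J
      · rw [h, hE2a, he1]
        rw [h] at h3
        exact h3
      · rw [hE2b j h]
        exact h3
    · intro r
      refine Fin.lastCases (n := T) ?_ (fun r => ?_) r
      · have h3 := b4 _ hj0
        rw [hmem, hmem] at h3
        exact a4.trans h3
      · have h3 := b5 r
        rw [hmem, hmem] at h3
        exact h3

theorem st_MPD (h1 : ST_PD2) : ST_MPD := by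
  intro n m T J L A B P b gA gB f g E hn hJ hinj hs hone hviol
  have key : ∀ T : ℕ, mpd_Inv gA gB f g J (fun j => (E j).1.1) T
      (spread L T J (fun j => (E j).1.1) P) (L * b + 2 * T)
      (fun j => ((sc L (P (E j).1.1)).1 + (mpd_r T J j : ℤ), (sc L (P (E j).1.1)).2)) := by
    intro T
    induction T with
    | zero =>
      rw [mpd_zero]
      refine ⟨f, g, E, ?_, hone, ?_, ?_, ?_⟩
      · have h := pad_scale L hs
        refine pad_mono ?_ h
        simp
      · intro i j hi hj hij
        exact hinj i j hi hj (by rw [hij])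
      · intro j hj
        left
        simp [mpd_r_zero]
      · intro α β S hSn hSu hv
        have hfil : (Finset.univ.filter fun i : Fin n => i.castAdd 0 ∈ S) = S := by
          ext i
          rw [Finset.mem_filter]
          simp
        rw [hfil]
        refine ⟨hSn, hSu, hv, fun j _ => Iff.rfl, fun r => r.elim0⟩
    | succ T ih =>
      rw [mpd_succ]
      have h := mpd_step h1 gA gB f g J hJ (fun j => (E j).1.1) T _ _ _
        (sc L (P (E (T % J)).1.1)) (T / J) hn (by simp only [mpd_r_self])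
        (fun j => ((sc L (P (E j).1.1)).1 + (mpd_r (T + 1) J j : ℤ), (sc L (P (E j).1.1)).2))
        (by
          intro j hj hne
          simp only [mpd_r_succ T J j hJ hj, if_neg hne, add_zero])
        (by
          simp only [mpd_r_succ T J (T % J) hJ (Nat.mod_lt _ hJ), if_pos, mpd_r_self])
        ih
      have e : (L : ℝ) * b + 2 * ((T + 1 : ℕ) : ℝ) = L * b + 2 * T + 2 := by
        push_cast
        ring
      rw [e]
      exact h
  obtain ⟨f', g', E', hs', -, -, -, hv'⟩ := key T
  refine ⟨f', g', ⟨fun α β => ⟨(hs'.mem α β).bin, (hs'.mem α β).deg, (hs'.mem α β).len, ?_⟩,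
    hs'.leaf⟩⟩
  intro S hSn hSu hcard
  by_contra hno
  obtain ⟨c1, c2, c3, -, c5⟩ := hv' α β S hSn hSu hno
  obtain ⟨j, hj, hjS⟩ := hviol α β _ c1 c2 c3
  rw [Finset.mem_filter] at hjS
  have hjS' := hjS.2
  have hlt : ∀ r : ℕ, r < T / J → r * J + j < T := by
    intro r hr
    have h2 : (r + 1) * J ≤ T / J * J := Nat.mul_le_mul_right _ hr
    have h3 : T / J * J ≤ T := Nat.div_mul_le_self T J
    rw [add_mul, one_mul] at h2
    omega
  let φ : Fin (T / J) → Fin (n + T) := fun r => Fin.natAdd n ⟨r * J + j, hlt r r.2⟩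
  have hφ : Function.Injective φ := by
    intro r r' h
    have h2 := congrArg Fin.val h
    simp only [φ, Fin.natAdd_mk] at h2
    have h3 : (r : ℕ) * J = r' * J := by omega
    exact Fin.ext (Nat.eq_of_mul_eq_mul_right hJ h3)
  have hsub : insert ((E j).1.1.castAdd T) (Finset.univ.image φ) ⊆ S := by
    intro x hx
    rw [Finset.mem_insert, Finset.mem_image] at hx
    rcases hx with hx | ⟨r, -, hx⟩
    · rw [hx]; exact hjS'
    · rw [← hx]
      have h3 := c5 ⟨r * J + j, hlt r r.2⟩
      have h4 : ((r : ℕ) * J + j) % J = j := by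
        rw [Nat.add_comm, Nat.add_mul_mod_self_right, Nat.mod_eq_of_lt hj]
      simp only [h4] at h3
      exact h3.2 hjS'
  have hnot : (E j).1.1.castAdd T ∉ Finset.univ.image φ := by
    intro hx
    rw [Finset.mem_image] at hx
    obtain ⟨r, -, hx⟩ := hx
    have h2 := congrArg Fin.val hx
    simp only [φ, Fin.natAdd_mk, Fin.val_castAdd] at h2
    have := (E j).1.1.2
    omega
  have hc := Finset.card_le_card hsub
  rw [Finset.card_insert_of_notMem hnot, Finset.card_image_of_injective _ hφ, Finset.card_univ,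
    Fintype.card_fin] at hc
  have hcard' : S.card ≤ T / J := by exact_mod_cast hcard
  omega

end Pool.Agent.Helper96.SE
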